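import Mathlib

set_option autoImplicit false

namespace Pool.Agent.Results.MP_0a2cd2_co.GapUnbounded

/-- A finite `r`-uniform hypergraph. -/
structure UniformHypergraph (r : ℕ) where
  /-- the vertices -/
  V : Type
  /-- finitely many vertices -/
  fin : Fintype V
  /-- the edges -/
  edges : Set (Finset V)
  uniform : ∀ e ∈ edges, e.card = r

/-- Every separated list assignment with lists of size at least `k` admits a proper colouring. -/
def SepChoosable {r : ℕ} (H : UniformHypergraph r) (k : ℕ) : Prop :=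
  ∀ L : H.V → Finset ℕ, (∀ v, k ≤ (L v).card) →
    (∀ e ∈ H.edges, ∀ u ∈ e, ∀ v ∈ e, u ≠ v → (L u ∩ L v).card ≤ 1) →
    ∃ φ : H.V → ℕ, (∀ v, φ v ∈ L v) ∧ ∀ e ∈ H.edges, ¬ ∃ c, ∀ v ∈ e, φ v = c

/-- For every list assignment with lists of size at least `k` and every colouring `f` of the edges
there is a list colouring adapted to `f`. -/
def AdChoosable {r : ℕ} (H : UniformHypergraph r) (k : ℕ) : Prop :=
  ∀ L : H.V → Finset ℕ, (∀ v, k ≤ (L v).card) → ∀ f : H.edges → ℕ,
    ∃ φ : H.V → ℕ, (∀ v, φ v ∈ L v) ∧ ∀ e : H.edges, ¬ ∀ v ∈ e.1, φ v = f e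

/-- Separation choice number. -/
noncomputable def chSep {r : ℕ} (H : UniformHypergraph r) : ℕ := sInf {k | SepChoosable H k}

/-- Adaptable choice number. -/
noncomputable def chAd {r : ℕ} (H : UniformHypergraph r) : ℕ := sInf {k | AdChoosable H k}

section SepCore

variable {A : Type} [Fintype A] [DecidableEq A]

/-- The colour `i` occurs in a list of another vertex. -/
def Sh (LA : A → Finset ℕ) (a : A) (i : ℕ) : Prop := ∃ a', a' ≠ a ∧ i ∈ LA a'

/-- Injective partial assignment by shared colours. -/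
def SM (LA : A → Finset ℕ) (S : Finset A) (c : A → ℕ) : Prop :=
  (∀ a ∈ S, c a ∈ LA a ∧ Sh LA a (c a)) ∧ Set.InjOn c S

lemma dich (LA : A → Finset ℕ) (m : ℕ) :
    (∃ S c, S.card = m ∧ SM LA S c) ∨
    (∃ S c, S.card < m ∧ SM LA S c ∧ ∀ a, a ∉ S → ∀ i ∈ LA a, Sh LA a i → i ∈ S.image c) := by
  induction m with
  | zero =>
    left
    exact ⟨∅, fun _ => 0, rfl, by simp, by simp⟩
  | succ m ih =>
    rcases ih with ⟨S, c, hS, hSM⟩ | ⟨S, c, hS, hSM⟩
    · by_cases h : ∀ a, a ∉ S → ∀ i ∈ LA a, Sh LA a i → i ∈ S.image c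
      · right
        exact ⟨S, c, by omega, hSM, h⟩
      · left
        push Not at h
        obtain ⟨a, ha, i, hi, hsh, hni⟩ := h
        refine ⟨insert a S, Function.update c a i, ?_, ?_, ?_⟩
        · rw [Finset.card_insert_of_notMem ha, hS]
        · intro b hb
          rcases Finset.mem_insert.1 hb with rfl | hb
          · rw [Function.update_self]
            exact ⟨hi, hsh⟩
          · have hba : b ≠ a := fun h => ha (h ▸ hb)
            rw [Function.update_of_ne hba]
            exact hSM.1 b hb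
        · have hni' : ∀ b ∈ S, c b ≠ i := by
            intro b hb h
            exact hni (Finset.mem_image.2 ⟨b, hb, h⟩)
          intro x hx y hy hxy
          rw [Finset.coe_insert, Set.mem_insert_iff] at hx hy
          by_cases hxa : x = a
          · by_cases hya : y = a
            · rw [hxa, hya]
            · exfalso
              subst hxa
              rw [Function.update_self, Function.update_of_ne hya] at hxy
              exact hni' y (by simpa [hya] using hy) hxy.symm
          · by_cases hya : y = a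
            · exfalso
              subst hya
              rw [Function.update_self, Function.update_of_ne hxa] at hxy
              exact hni' x (by simpa [hxa] using hx) hxy
            · rw [Function.update_of_ne hxa, Function.update_of_ne hya] at hxy
              exact hSM.2 (by simpa [hxa] using hx) (by simpa [hya] using hy) hxy
    · right
      obtain ⟨h1, h2⟩ := hSM
      exact ⟨S, c, by omega, h1, h2⟩

lemma eq_of_two {X Y : Finset ℕ} (h : (X ∩ Y).card ≤ 1) {i j : ℕ} (hi : i ∈ X) (hi' : i ∈ Y)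
    (hj : j ∈ X) (hj' : j ∈ Y) : i = j :=
  Finset.card_le_one.1 h i (Finset.mem_inter.2 ⟨hi, hi'⟩) j (Finset.mem_inter.2 ⟨hj, hj'⟩)

/-- Extending a partial injective choice. -/
lemma extend (LA : A → Finset ℕ) (k q : ℕ) (hcardA : Fintype.card A = k + q)
    (hk : ∀ a, (LA a).card = k) (hAA : ∀ a a', a ≠ a' → (LA a ∩ LA a').card ≤ 1)
    (hkq : 3 * q + 2 ≤ k) (S : Finset A) (c : A → ℕ) (hS : S.card = 2 * q + 1)
    (hSM : SM LA S c) :
    ∃ c' : A → ℕ, Function.Injective c' ∧ (∀ a, c' a ∈ LA a) ∧ ∀ a ∈ S, c' a = c a := by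
  classical
  let t : {a : A // a ∉ S} → Finset ℕ := fun a => LA a.1 \ S.image c
  have ht : ∀ a, k - (2 * q + 1) ≤ (t a).card := by
    intro a
    have h1 := Finset.le_card_sdiff (S.image c) (LA a.1)
    have h2 : (S.image c).card ≤ S.card := Finset.card_image_le
    rw [hk] at h1
    show _ ≤ (LA a.1 \ S.image c).card
    omega
  have hHall : ∀ s : Finset {a : A // a ∉ S}, s.card ≤ (s.biUnion t).card := by
    intro s
    have hs : s.card ≤ k - q - 1 := by
      have h1 : s.card ≤ Fintype.card {a : A // a ∉ S} := Finset.card_le_univ s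
      have h2 : Fintype.card {a : A // a ∉ S} = Fintype.card A - S.card := by
        rw [Fintype.card_subtype_compl, Fintype.card_coe]
      omega
    by_cases h0 : s.card ≤ 1
    · rcases Finset.eq_empty_or_nonempty s with h | ⟨a, ha⟩
      · simp [h]
      · have h1 := ht a
        have h2 : (t a).card ≤ (s.biUnion t).card :=
          Finset.card_le_card (Finset.subset_biUnion_of_mem t ha)
        omega
    · push Not at h0
      obtain ⟨a, ha, b, hb, hab⟩ := Finset.one_lt_card.1 h0
      have h1 := ht a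
      have h2 := ht b
      have h3 : (t a ∪ t b).card ≤ (s.biUnion t).card :=
        Finset.card_le_card (Finset.union_subset (Finset.subset_biUnion_of_mem t ha)
          (Finset.subset_biUnion_of_mem t hb))
      have h4 := Finset.card_union_add_card_inter (t a) (t b)
      have h5 : (t a ∩ t b).card ≤ 1 := by
        refine le_trans (Finset.card_le_card ?_) (hAA a.1 b.1 (fun h => hab (Subtype.ext h)))
        exact Finset.inter_subset_inter Finset.sdiff_subset Finset.sdiff_subset
      omega
  obtain ⟨d, hd, hdt⟩ := (Finset.all_card_le_biUnion_card_iff_exists_injective t).1 hHall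
  refine ⟨fun a => if h : a ∈ S then c a else d ⟨a, h⟩, ?_, ?_, ?_⟩
  · intro x y hxy
    have hdn : ∀ a, d a ∉ S.image c := fun a => (Finset.mem_sdiff.1 (hdt a)).2
    by_cases hx : x ∈ S <;> by_cases hy : y ∈ S
    · simp only [hx, hy, dif_pos] at hxy
      exact hSM.2 hx hy hxy
    · simp only [hx, hy, dif_pos, dif_neg, not_false_eq_true] at hxy
      exact absurd (Finset.mem_image.2 ⟨x, hx, hxy⟩) (hdn _)
    · simp only [hx, hy, dif_pos, dif_neg, not_false_eq_true] at hxy
      exact absurd (Finset.mem_image.2 ⟨y, hy, hxy.symm⟩) (hdn _)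
    · simp only [hx, hy, dif_neg, not_false_eq_true] at hxy
      have := hd hxy
      exact congrArg Subtype.val this
  · intro a
    by_cases ha : a ∈ S
    · simp only [ha, dif_pos]
      exact (hSM.1 a ha).1
    · simp only [ha, dif_neg, not_false_eq_true]
      exact (Finset.mem_sdiff.1 (hdt ⟨a, ha⟩)).1
  · intro a ha
    simp only [ha, dif_pos]

/-- Case 1 of the separated upper bound. -/
lemma case_one (LA : A → Finset ℕ) (k q : ℕ) (hcardA : Fintype.card A = k + q)
    (c' : A → ℕ) (hinj : Function.Injective c') (hc' : ∀ a, c' a ∈ LA a)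
    (S : Finset A) (hS : S.card = 2 * q + 1) (hsh : ∀ a ∈ S, Sh LA a (c' a))
    (X : Finset ℕ) (hX : X.card = k) (hAX : ∀ a, (LA a ∩ X).card ≤ 1) :
    ¬ X ⊆ Finset.univ.image c' := by
  classical
  intro hsub
  set R : Finset A := Finset.univ.filter (fun a => c' a ∉ X) with hR
  have hW : (Finset.univ.filter (fun a => c' a ∈ X)).card = k := by
    rw [← hX]
    have : (Finset.univ.filter (fun a => c' a ∈ X)).image c' = X := by
      ext i
      simp only [Finset.mem_image, Finset.mem_filter, Finset.mem_univ, true_and]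
      constructor
      · rintro ⟨a, ha, rfl⟩; exact ha
      · intro hi
        obtain ⟨a, _, ha⟩ := Finset.mem_image.1 (hsub hi)
        exact ⟨a, by rw [ha]; exact hi, ha⟩
    rw [← Finset.card_image_of_injective _ hinj, this]
  have hRc : R.card = q := by
    have h1 := Finset.card_filter_add_card_filter_not (s := (Finset.univ : Finset A))
      (fun a => c' a ∈ X)
    rw [hW, Finset.card_univ, hcardA] at h1
    have : R.card = (Finset.univ.filter (fun a => ¬ c' a ∈ X)).card := rfl
    omega
  -- the shared ones inject into R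
  have hS1 : (S.filter (fun a => c' a ∈ X)).card ≤ R.card := by
    have hch : ∀ a : A, ∃ a' : A, a ∈ S.filter (fun a => c' a ∈ X) → a' ≠ a ∧ c' a ∈ LA a' := by
      intro a
      by_cases ha : a ∈ S.filter (fun a => c' a ∈ X)
      · obtain ⟨a', h1, h2⟩ := hsh a (Finset.mem_filter.1 ha).1
        exact ⟨a', fun _ => ⟨h1, h2⟩⟩
      · exact ⟨a, fun h => absurd h ha⟩
    choose g hg using hch
    apply Finset.card_le_card_of_injOn g
    · intro a ha
      have ha' : a ∈ S.filter (fun a => c' a ∈ X) := ha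
      obtain ⟨h1, h2⟩ := hg a ha'
      have hax : c' a ∈ X := (Finset.mem_filter.1 ha').2
      show g a ∈ R
      rw [hR, Finset.mem_filter]
      refine ⟨Finset.mem_univ _, ?_⟩
      intro hcon
      have := eq_of_two (hAX (g a)) (hc' (g a)) hcon h2 hax
      exact h1 (hinj this)
    · intro a ha b hb hab
      have ha' : a ∈ S.filter (fun a => c' a ∈ X) := ha
      have hb' : b ∈ S.filter (fun a => c' a ∈ X) := hb
      obtain ⟨_, h2⟩ := hg a ha'
      obtain ⟨_, h4⟩ := hg b hb'
      rw [← hab] at h4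
      exact hinj (eq_of_two (hAX (g a)) h2 (Finset.mem_filter.1 ha').2 h4
        (Finset.mem_filter.1 hb').2)
  have hS2 : (S.filter (fun a => ¬ c' a ∈ X)).card ≤ R.card := by
    apply Finset.card_le_card
    intro a ha
    rw [hR, Finset.mem_filter]
    exact ⟨Finset.mem_univ _, (Finset.mem_filter.1 ha).2⟩
  have h3 := Finset.card_filter_add_card_filter_not (s := S) (fun a => c' a ∈ X)
  omega

/-- Counting shared incidences in Case 2. -/
lemma shared_count (LA : A → Finset ℕ) (hAA : ∀ a a', a ≠ a' → (LA a ∩ LA a').card ≤ 1)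
    (S : Finset A) (c : A → ℕ) (m : ℕ) (hS : S.card ≤ m)
    (hmax : ∀ a, a ∉ S → ∀ i ∈ LA a, Sh LA a i → i ∈ S.image c)
    (s : A → ℕ) (hs : ∀ a, s a = (@Finset.filter ℕ (fun i => Sh LA a i)
      (Classical.decPred _) (LA a)).card) :
    (∀ a, s a ≤ 2 * m) ∧ ∑ a, s a ≤ Fintype.card A + 2 * m * m := by
  classical
  set C := S.image c with hC
  have hCm : C.card ≤ m := Finset.card_image_le.trans hS
  have h1 : ∀ a, s a ≤ (LA a ∩ C).card + if a ∈ S then m else 0 := by
    intro a
    rw [hs a]
    have hsplit : (@Finset.filter ℕ (fun i => Sh LA a i) (Classical.decPred _) (LA a)) ⊆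
        (LA a ∩ C) ∪ ((@Finset.filter ℕ (fun i => Sh LA a i) (Classical.decPred _) (LA a)) \ C) := by
      intro i hi
      by_cases hiC : i ∈ C
      · exact Finset.mem_union_left _ (Finset.mem_inter.2 ⟨(Finset.mem_filter.1 hi).1, hiC⟩)
      · exact Finset.mem_union_right _ (Finset.mem_sdiff.2 ⟨hi, hiC⟩)
    refine (Finset.card_le_card hsplit).trans ((Finset.card_union_le _ _).trans ?_)
    apply Nat.add_le_add_left
    by_cases ha : a ∈ S
    · rw [if_pos ha]
      refine le_trans ?_ hS
      have hch : ∀ i : ℕ, ∃ a' : A,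
          i ∈ (@Finset.filter ℕ (fun i => Sh LA a i) (Classical.decPred _) (LA a)) \ C →
            a' ≠ a ∧ i ∈ LA a' := by
        intro i
        by_cases hi : i ∈ (@Finset.filter ℕ (fun i => Sh LA a i) (Classical.decPred _) (LA a)) \ C
        · obtain ⟨a', h1, h2⟩ := (Finset.mem_filter.1 (Finset.mem_sdiff.1 hi).1).2
          exact ⟨a', fun _ => ⟨h1, h2⟩⟩
        · exact ⟨a, fun h => absurd h hi⟩
      choose g hg using hch
      apply Finset.card_le_card_of_injOn g
      · intro i hi
        have hi' : i ∈ (@Finset.filter ℕ (fun i => Sh LA a i) (Classical.decPred _) (LA a)) \ C := hi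
        obtain ⟨h2, h3⟩ := hg i hi'
        by_contra hcon
        have h4 := Finset.mem_sdiff.1 hi'
        exact h4.2 (hmax (g i) hcon i h3 ⟨a, fun h => h2 h.symm, (Finset.mem_filter.1 h4.1).1⟩)
      · intro i hi j hj hij
        have hi' : i ∈ (@Finset.filter ℕ (fun i => Sh LA a i) (Classical.decPred _) (LA a)) \ C := hi
        have hj' : j ∈ (@Finset.filter ℕ (fun i => Sh LA a i) (Classical.decPred _) (LA a)) \ C := hj
        obtain ⟨h2, h3⟩ := hg i hi'
        obtain ⟨_, h5⟩ := hg j hj'
        rw [← hij] at h5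
        exact eq_of_two (hAA a (g i) (Ne.symm h2))
          (Finset.mem_filter.1 (Finset.mem_sdiff.1 hi').1).1 h3
          (Finset.mem_filter.1 (Finset.mem_sdiff.1 hj').1).1 h5
    · rw [if_neg ha]
      rw [Nat.le_zero, Finset.card_eq_zero]
      apply Finset.eq_empty_of_forall_notMem
      intro i hi
      have h4 := Finset.mem_sdiff.1 hi
      have h5 := Finset.mem_filter.1 h4.1
      exact h4.2 (hmax a ha i h5.1 h5.2)
  constructor
  · intro a
    refine (h1 a).trans ?_
    have h2 : (LA a ∩ C).card ≤ m := (Finset.card_le_card Finset.inter_subset_right).trans hCm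
    split_ifs <;> omega
  · have h2 : ∑ a, s a ≤ ∑ a, ((LA a ∩ C).card + if a ∈ S then m else 0) :=
      Finset.sum_le_sum (fun a _ => h1 a)
    have h3 : ∑ a : A, (if a ∈ S then m else 0) ≤ m * m := by
      rw [← Finset.sum_filter, Finset.sum_const, smul_eq_mul]
      apply Nat.mul_le_mul_right
      refine le_trans (Finset.card_le_card ?_) hS
      intro a ha
      exact (Finset.mem_filter.1 ha).2
    have h4 : ∑ a : A, (LA a ∩ C).card ≤ Fintype.card A + m * m := by
      have h5 : ∀ a, (LA a ∩ C).card ≤ 1 + (LA a ∩ C).offDiag.card := by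
        intro a
        rw [Finset.offDiag_card]
        rcases Nat.eq_zero_or_pos (LA a ∩ C).card with h | h
        · omega
        · have : (LA a ∩ C).card * (LA a ∩ C).card - (LA a ∩ C).card =
              (LA a ∩ C).card * ((LA a ∩ C).card - 1) := by
            rw [Nat.mul_sub, mul_one]
          rw [this]
          have h6 : 1 * ((LA a ∩ C).card - 1) ≤ (LA a ∩ C).card * ((LA a ∩ C).card - 1) :=
            Nat.mul_le_mul_right _ h
          omega
      have h6 : ∑ a : A, (LA a ∩ C).offDiag.card ≤ m * m := by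
        rw [← Finset.card_biUnion]
        · have h7 : (Finset.univ.biUnion fun a => (LA a ∩ C).offDiag) ⊆ C ×ˢ C := by
            intro x hx
            obtain ⟨a, _, ha⟩ := Finset.mem_biUnion.1 hx
            rw [Finset.mem_offDiag] at ha
            rw [Finset.mem_product]
            exact ⟨(Finset.mem_inter.1 ha.1).2, (Finset.mem_inter.1 ha.2.1).2⟩
          refine (Finset.card_le_card h7).trans ?_
          rw [Finset.card_product]
          exact Nat.mul_le_mul hCm hCm
        · intro a _ a' _ haa'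
          rw [Function.onFun, Finset.disjoint_left]
          intro x hx hx'
          rw [Finset.mem_offDiag] at hx hx'
          exact hx.2.2 (eq_of_two (hAA a a' haa') (Finset.mem_inter.1 hx.1).1
            (Finset.mem_inter.1 hx'.1).1 (Finset.mem_inter.1 hx.2.1).1
            (Finset.mem_inter.1 hx'.2.1).1)
      calc ∑ a : A, (LA a ∩ C).card ≤ ∑ a : A, (1 + (LA a ∩ C).offDiag.card) :=
            Finset.sum_le_sum (fun a _ => h5 a)
        _ = Fintype.card A + ∑ a : A, (LA a ∩ C).offDiag.card := by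
            rw [Finset.sum_add_distrib]; simp
        _ ≤ _ := by omega
    rw [Finset.sum_add_distrib] at h2
    have h5 : 2 * m * m = m * m + m * m := by ring
    omega

/-- Case 2 of the separated upper bound. -/
lemma case_two {B : Type} [Fintype B] (LA : A → Finset ℕ) (k q : ℕ)
    (hcardA : Fintype.card A = k + q) (hk0 : 0 < k)
    (hk : ∀ a, (LA a).card = k) (hAA : ∀ a a', a ≠ a' → (LA a ∩ LA a').card ≤ 1)
    (hq : 8 * q * q + q ≤ k) (S : Finset A) (c : A → ℕ) (hS : S.card ≤ 2 * q)
    (hmax : ∀ a, a ∉ S → ∀ i ∈ LA a, Sh LA a i → i ∈ S.image c)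
    (LB : B → Finset ℕ) (hB : ∀ w, (LB w).card = k)
    (hb : (Fintype.card B : ℝ) * Real.exp 4 < (k : ℝ) ^ k) :
    ∃ c' : A → ℕ, Function.Injective c' ∧ (∀ a, c' a ∈ LA a) ∧
      ∀ w, ¬ LB w ⊆ Finset.univ.image c' := by
  classical
  let s : A → ℕ := fun a => (@Finset.filter ℕ (fun i => Sh LA a i)
      (Classical.decPred _) (LA a)).card
  obtain ⟨hs1, hs2⟩ := shared_count LA hAA S c (2 * q) hS hmax s (fun a => rfl)
  -- unshared colours
  let U : A → Finset ℕ := fun a => Finset.filter (fun i => ¬ Sh LA a i) (LA a)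
  have hUs : ∀ a, (U a).card = k - s a := by
    intro a
    have h1 := Finset.card_filter_add_card_filter_not (s := LA a) (fun i => Sh LA a i)
    rw [hk a] at h1
    have h2 : s a = (Finset.filter (fun i => Sh LA a i) (LA a)).card := rfl
    have h3 : (U a).card = (Finset.filter (fun i => ¬ Sh LA a i) (LA a)).card := rfl
    omega
  have hsk : ∀ a, 2 * s a ≤ k := by
    intro a
    have h1 := hs1 a
    rcases Nat.eq_zero_or_pos q with h | h
    · subst h; omega
    · have : 8 * q * 1 ≤ 8 * q * q := Nat.mul_le_mul_left _ h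
      omega
  have hsum : ∑ a, s a ≤ 2 * k := by
    have : 2 * (2 * q) * (2 * q) = 8 * q * q := by ring
    omega
  have hkR : (0 : ℝ) < k := by exact_mod_cast hk0
  -- product lower bound
  have hprod : ∀ W : Finset A, W.card = k →
      (k : ℝ) ^ k * Real.exp (-4) ≤ ∏ a ∈ W, ((U a).card : ℝ) := by
    intro W hW
    have h1 : ∀ a, (k : ℝ) * Real.exp (-(2 * s a / k)) ≤ ((U a).card : ℝ) := by
      intro a
      have h2 : ((U a).card : ℝ) = k - s a := by
        rw [hUs a, Nat.cast_sub (by have := hsk a; omega)]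
      rw [h2]
      have h3 : (s a : ℝ) / k ≤ 1 / 2 := by
        rw [div_le_div_iff₀ hkR (by norm_num)]
        have := hsk a
        have h4 : ((2 * s a : ℕ) : ℝ) ≤ k := by exact_mod_cast this
        push_cast at h4
        linarith
      have h3' : (0 : ℝ) ≤ (s a : ℝ) / k := by positivity
      set x : ℝ := (s a : ℝ) / k with hx
      have h5 : (2 * (s a : ℝ) / k) = 2 * x := by rw [hx]; ring
      have h6 : (k : ℝ) - s a = k * (1 - x) := by rw [hx]; field_simp
      rw [h5, h6]
      apply mul_le_mul_of_nonneg_left _ hkR.le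
      have h7 : 1 + 2 * x ≤ Real.exp (2 * x) := by
        have := Real.add_one_le_exp (2 * x); linarith
      have h8 : Real.exp (-(2 * x)) * Real.exp (2 * x) = 1 := by
        rw [← Real.exp_add]; simp
      have h9 : 0 < Real.exp (-(2 * x)) := Real.exp_pos _
      have h10 : 1 ≤ (1 - x) * Real.exp (2 * x) := by nlinarith
      nlinarith
    calc (k : ℝ) ^ k * Real.exp (-4)
        ≤ (k : ℝ) ^ k * Real.exp (∑ a ∈ W, (-(2 * (s a : ℝ) / k))) := by
          apply mul_le_mul_of_nonneg_left _ (by positivity)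
          apply Real.exp_le_exp.2
          rw [Finset.sum_neg_distrib]
          apply neg_le_neg
          rw [← Finset.sum_div, ← Finset.mul_sum, div_le_iff₀ hkR]
          have h2 : ∑ a ∈ W, s a ≤ 2 * k :=
            (Finset.sum_le_univ_sum_of_nonneg (fun a => Nat.zero_le _)).trans hsum
          have h3 : (∑ a ∈ W, (s a : ℝ)) ≤ 2 * k := by exact_mod_cast h2
          linarith
      _ = ∏ a ∈ W, ((k : ℝ) * Real.exp (-(2 * s a / k))) := by
          rw [Real.exp_sum, Finset.prod_mul_distrib, Finset.prod_const, hW]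
      _ ≤ ∏ a ∈ W, ((U a).card : ℝ) := by
          apply Finset.prod_le_prod
          · intro a _; positivity
          · intro a _; exact h1 a
  -- colourings by unshared colours
  let Om : Finset (A → ℕ) := Fintype.piFinset U
  have hOm : ∀ c : A → ℕ, c ∈ Om ↔ ∀ a, c a ∈ LA a ∧ ¬ Sh LA a (c a) := by
    intro c
    simp only [Om, Fintype.mem_piFinset, U, Finset.mem_filter]
  have hUpos : ∀ a, 0 < (U a).card := by
    intro a
    rw [hUs a]
    have := hsk a
    omega
  have hinj : ∀ c ∈ Om, Function.Injective c := by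
    intro c hc a a' haa'
    by_contra hne
    have h1 := (hOm c).1 hc
    exact (h1 a).2 ⟨a', Ne.symm hne, haa' ▸ (h1 a').1⟩
  let Bad : B → Finset (A → ℕ) := fun w => Om.filter (fun c => LB w ⊆ Finset.univ.image c)
  have hBad : ∀ w, ((Bad w).card : ℝ) * ((k : ℝ) ^ k * Real.exp (-4)) ≤ Om.card := by
    intro w
    rcases Finset.eq_empty_or_nonempty (Bad w) with h | ⟨c0, hc0⟩
    · rw [h]; simp
    · obtain ⟨hc1, hc2⟩ := Finset.mem_filter.1 hc0
      set W : Finset A := Finset.univ.filter (fun a => c0 a ∈ LB w) with hW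
      have hWcard : W.card = k := by
        rw [← hB w]
        have : W.image c0 = LB w := by
          ext i
          simp only [hW, Finset.mem_image, Finset.mem_filter, Finset.mem_univ, true_and]
          constructor
          · rintro ⟨a, ha, rfl⟩; exact ha
          · intro hi
            obtain ⟨a, _, ha⟩ := Finset.mem_image.1 (hc2 hi)
            exact ⟨a, by rw [ha]; exact hi, ha⟩
        rw [← this, Finset.card_image_of_injective _ (hinj c0 hc1)]
      have hsubset : Bad w ⊆ Fintype.piFinset (fun a => if a ∈ W then {c0 a} else U a) := by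
        intro c1 hc
        obtain ⟨hc3, hc4⟩ := Finset.mem_filter.1 hc
        rw [Fintype.mem_piFinset]
        intro a
        by_cases ha : a ∈ W
        · rw [if_pos ha, Finset.mem_singleton]
          have hi : c0 a ∈ LB w := (Finset.mem_filter.1 ha).2
          obtain ⟨a'', _, ha''⟩ := Finset.mem_image.1 (hc4 hi)
          have h0 := (hOm c0).1 hc1 a
          have h1 := (hOm c1).1 hc3 a''
          have : a'' = a := by
            by_contra hne
            exact h0.2 ⟨a'', hne, ha'' ▸ h1.1⟩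
          rw [← ha'', this]
        · rw [if_neg ha]
          exact (Fintype.mem_piFinset.1 hc3) a
      have hcard := Finset.card_le_card hsubset
      rw [Fintype.card_piFinset] at hcard
      have h1 : (∏ a, (if a ∈ W then ({c0 a} : Finset ℕ) else U a).card) * ∏ a ∈ W, (U a).card =
          Om.card := by
        rw [Fintype.card_piFinset]
        have h2 : (∏ a, (if a ∈ W then ({c0 a} : Finset ℕ) else U a).card) =
            ∏ a ∈ Wᶜ, (U a).card := by
          rw [← Finset.prod_mul_prod_compl W]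
          have h3 : ∏ a ∈ W, (if a ∈ W then ({c0 a} : Finset ℕ) else U a).card = 1 := by
            apply Finset.prod_eq_one
            intro a ha
            rw [if_pos ha]; simp
          rw [h3, one_mul]
          apply Finset.prod_congr rfl
          intro a ha
          rw [if_neg (Finset.mem_compl.1 ha)]
        rw [h2, mul_comm, Finset.prod_mul_prod_compl]
      have h2 : ((Bad w).card : ℝ) * ∏ a ∈ W, ((U a).card : ℝ) ≤ Om.card := by
        have : (Bad w).card * ∏ a ∈ W, (U a).card ≤ Om.card := by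
          rw [← h1]
          exact Nat.mul_le_mul_right _ hcard
        exact_mod_cast this
      exact (mul_le_mul_of_nonneg_left (hprod W hWcard) (by positivity)).trans h2
  have hOmpos : (0 : ℝ) < Om.card := by
    have : 0 < Om.card := by
      rw [Fintype.card_piFinset]
      exact Finset.prod_pos (fun a _ => hUpos a)
    exact_mod_cast this
  -- union bound
  have hE : (0 : ℝ) < (k : ℝ) ^ k * Real.exp (-4) := by positivity
  have hunion : ((Finset.univ.biUnion Bad).card : ℝ) < Om.card := by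
    have h1 : ((Finset.univ.biUnion Bad).card : ℝ) ≤ ∑ w : B, ((Bad w).card : ℝ) := by
      have : (Finset.univ.biUnion Bad).card ≤ ∑ w : B, (Bad w).card := Finset.card_biUnion_le
      exact_mod_cast this
    have h2 : (∑ w : B, ((Bad w).card : ℝ)) * ((k : ℝ) ^ k * Real.exp (-4)) ≤
        Fintype.card B * Om.card := by
      rw [Finset.sum_mul]
      calc ∑ w : B, ((Bad w).card : ℝ) * ((k : ℝ) ^ k * Real.exp (-4))
          ≤ ∑ _w : B, (Om.card : ℝ) := Finset.sum_le_sum (fun w _ => hBad w)
        _ = _ := by simp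
    have h3 : (Fintype.card B : ℝ) < (k : ℝ) ^ k * Real.exp (-4) := by
      have h4 : Real.exp 4 * Real.exp (-4) = 1 := by rw [← Real.exp_add]; simp
      have h5 := mul_lt_mul_of_pos_right hb (Real.exp_pos (-4))
      rw [mul_assoc, h4, mul_one] at h5
      exact h5
    have h4 : (∑ w : B, ((Bad w).card : ℝ)) * ((k : ℝ) ^ k * Real.exp (-4)) <
        Om.card * ((k : ℝ) ^ k * Real.exp (-4)) := by
      refine h2.trans_lt ?_
      rw [mul_comm (Om.card : ℝ)]
      exact mul_lt_mul_of_pos_right h3 hOmpos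
    exact h1.trans_lt (lt_of_mul_lt_mul_right h4 hE.le)
  have hex : ∃ c ∈ Om, c ∉ Finset.univ.biUnion Bad := by
    by_contra hcon
    push Not at hcon
    have h1 : Om ⊆ Finset.univ.biUnion Bad := hcon
    have h2 := Finset.card_le_card h1
    have h3 : (Om.card : ℝ) ≤ (Finset.univ.biUnion Bad).card := by exact_mod_cast h2
    linarith
  obtain ⟨c1, hc1, hc2⟩ := hex
  refine ⟨c1, hinj c1 hc1, fun a => ((hOm c1).1 hc1 a).1, ?_⟩
  intro w hw
  exact hc2 (Finset.mem_biUnion.2 ⟨w, Finset.mem_univ w, Finset.mem_filter.2 ⟨hc1, hw⟩⟩)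

/-- The separated upper bound, core form. -/
lemma sep_core {B : Type} [Fintype B] (LA : A → Finset ℕ) (k q : ℕ)
    (hcardA : Fintype.card A = k + q) (hk0 : 2 ≤ k)
    (hk : ∀ a, (LA a).card = k) (hAA : ∀ a a', a ≠ a' → (LA a ∩ LA a').card ≤ 1)
    (hq : 8 * q * q + q ≤ k)
    (LB : B → Finset ℕ) (hB : ∀ w, (LB w).card = k) (hAB : ∀ a w, (LA a ∩ LB w).card ≤ 1)
    (hb : (Fintype.card B : ℝ) * Real.exp 4 < (k : ℝ) ^ k) :
    ∃ c' : A → ℕ, Function.Injective c' ∧ (∀ a, c' a ∈ LA a) ∧
      ∀ w, ¬ LB w ⊆ Finset.univ.image c' := by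
  rcases dich LA (2 * q + 1) with ⟨S, c, hS, hSM⟩ | ⟨S, c, hS, hSM, hmax⟩
  · have hkq : 3 * q + 2 ≤ k := by
      rcases Nat.eq_zero_or_pos q with h | h
      · subst h; omega
      · have : 8 * q * 1 ≤ 8 * q * q := Nat.mul_le_mul_left _ h
        omega
    obtain ⟨c', h1, h2, h3⟩ := extend LA k q hcardA hk hAA hkq S c hS hSM
    refine ⟨c', h1, h2, ?_⟩
    intro w
    exact case_one LA k q hcardA c' h1 h2 S hS
      (fun a ha => by rw [h3 a ha]; exact (hSM.1 a ha).2) (LB w) (hB w) (fun a => hAB a w)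
  · exact case_two LA k q hcardA (by omega) hk hAA hq S c (by omega) hmax LB hB hb

end SepCore

section Graph

/-- The graph `K_A ∨ (empty graph on B)` as a 2-uniform hypergraph. -/
def host (A B : Type) [Fintype A] [Fintype B] : UniformHypergraph 2 where
  V := A ⊕ B
  fin := inferInstance
  edges := {e | ∃ (a : A) (y : A ⊕ B), y ≠ Sum.inl a ∧ ∀ x, x ∈ e ↔ x = Sum.inl a ∨ x = y}
  uniform := by
    classical
    rintro e ⟨a, y, hy, he⟩
    have : e = {Sum.inl a, y} := by
      ext x
      rw [he x]; simp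
    rw [this, Finset.card_pair (Ne.symm hy)]

lemma host_mem {A B : Type} [Fintype A] [Fintype B]
    (a : A) (y : A ⊕ B) (hy : y ≠ Sum.inl a) :
    ∃ e : Finset (A ⊕ B), e ∈ (host A B).edges ∧ ∀ x, x ∈ e ↔ x = Sum.inl a ∨ x = y := by
  classical
  have h : ∀ x, x ∈ ({Sum.inl a, y} : Finset (A ⊕ B)) ↔ x = Sum.inl a ∨ x = y := by
    intro x; simp
  exact ⟨{Sum.inl a, y}, ⟨a, y, hy, h⟩, h⟩

lemma sep_host (A B : Type) [Fintype A] [Fintype B] (k q : ℕ)
    (hcardA : Fintype.card A = k + q) (hk0 : 2 ≤ k) (hq : 8 * q * q + q ≤ k)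
    (hb : (Fintype.card B : ℝ) * Real.exp 4 < (k : ℝ) ^ k) : SepChoosable (host A B) k := by
  classical
  intro L hL hsep
  have hL' : ∀ v : A ⊕ B, ∃ L' : Finset ℕ, L' ⊆ L v ∧ L'.card = k :=
    fun v => Finset.exists_subset_card_eq (hL v)
  choose L' hL'sub hL'card using hL'
  have hpair : ∀ (a : A) (y : A ⊕ B), y ≠ Sum.inl a → (L' (Sum.inl a) ∩ L' y).card ≤ 1 := by
    intro a y hy
    obtain ⟨e, he, hmem⟩ := host_mem a y hy
    refine (Finset.card_le_card (Finset.inter_subset_inter (hL'sub _) (hL'sub _))).trans ?_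
    exact hsep e he (Sum.inl a) ((hmem _).2 (Or.inl rfl)) y ((hmem _).2 (Or.inr rfl)) (Ne.symm hy)
  obtain ⟨c, hc1, hc2, hc3⟩ := sep_core (fun a : A => L' (Sum.inl a)) k q hcardA hk0
    (fun a => hL'card _)
    (fun a a' haa' => hpair a (Sum.inl a') (by
      intro h
      exact haa' (Sum.inl.inj h).symm)) hq (fun w : B => L' (Sum.inr w)) (fun w => hL'card _)
    (fun a w => hpair a (Sum.inr w) (by simp)) hb
  have hw : ∀ w : B, ∃ i ∈ L' (Sum.inr w), i ∉ Finset.univ.image c := by
    intro w
    exact Finset.not_subset.1 (hc3 w)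
  choose d hd1 hd2 using hw
  refine ⟨fun v => Sum.elim c d v, ?_, ?_⟩
  · rintro (a | w)
    · exact hL'sub _ (hc2 a)
    · exact hL'sub _ (hd1 w)
  · rintro e ⟨a, y, hy, he⟩ ⟨i, hi⟩
    have h1 := hi _ ((he _).2 (Or.inl rfl))
    have h2 := hi _ ((he _).2 (Or.inr rfl))
    rcases y with a' | w
    · have : c a = c a' := h1.trans h2.symm
      have h3 := hc1 this
      exact hy (by rw [h3])
    · apply hd2 w
      have h3 : d w = c a := h2.trans h1.symm
      rw [h3]
      exact Finset.mem_image_of_mem _ (Finset.mem_univ _)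

/-! The adaptable lower bound. -/

/-- Clique side: `n` single vertices and `t` gadgets with four vertices each. -/
abbrev Aside (n t : ℕ) : Type := Fin n ⊕ (Fin t × (Bool ⊕ Bool))

/-- Independent side. -/
abbrev Bside (n t K h : ℕ) : Type := (Fin n → Fin K) × (Fin t → Bool × (Bool → Fin h))

/-- Colours. -/
abbrev Col (n t K h : ℕ) : Type := (Fin n × Fin K) ⊕ (Fin t × Bool × Bool × Fin h)

/-- lists on the clique side. -/
def listA (n t K h : ℕ) : Aside n t → Finset (Col n t K h)
  | Sum.inl s => Finset.univ.image (fun c : Fin K => Sum.inl (s, c))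
  | Sum.inr (g, Sum.inl α) => Finset.univ.image (fun x : Bool × Fin h => Sum.inr (g, α, x.1, x.2))
  | Sum.inr (g, Sum.inr β) => Finset.univ.image (fun x : Bool × Fin h => Sum.inr (g, x.1, β, x.2))

/-- lists on the independent side. -/
def listB (n t K h : ℕ) (w : Bside n t K h) : Finset (Col n t K h) :=
  Finset.univ.image (fun x : Fin n ⊕ (Fin t × Bool) =>
    match x with
    | Sum.inl s => Sum.inl (s, w.1 s)
    | Sum.inr (g, α) => Sum.inr (g, α, xor α (w.2 g).1, (w.2 g).2 α))

lemma listA_card (n t h : ℕ) (a : Aside n t) : (listA n t (2 * h) h a).card = 2 * h := by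
  rcases a with s | ⟨g, α | β⟩
  · show (Finset.univ.image _).card = _
    rw [Finset.card_image_of_injective]
    · simp
    · intro x y hxy
      simpa using hxy
  · show (Finset.univ.image _).card = _
    rw [Finset.card_image_of_injective]
    · simp
    · intro x y hxy
      simpa [Prod.ext_iff] using hxy
  · show (Finset.univ.image _).card = _
    rw [Finset.card_image_of_injective]
    · simp
    · intro x y hxy
      simpa [Prod.ext_iff] using hxy

lemma listB_card (n t K h : ℕ) (w : Bside n t K h) : (listB n t K h w).card = n + t * 2 := by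
  unfold listB
  rw [Finset.card_image_of_injective]
  · simp
  · rintro (s | ⟨g, α⟩) (s' | ⟨g', α'⟩) hxy
    · simp at hxy; simp [hxy.1]
    · simp at hxy
    · simp at hxy
    · simp at hxy
      obtain ⟨h1, h2, _⟩ := hxy
      simp [h1, h2]

/-- lists on the two sides meet in at most one colour. -/
lemma listAB (n t K h : ℕ) (a : Aside n t) (w : Bside n t K h) (i j : Col n t K h)
    (hi : i ∈ listA n t K h a) (hi' : i ∈ listB n t K h w)
    (hj : j ∈ listA n t K h a) (hj' : j ∈ listB n t K h w) : i = j := by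
  unfold listB at hi' hj'
  rw [Finset.mem_image] at hi' hj'
  obtain ⟨x, _, rfl⟩ := hi'
  obtain ⟨y, _, rfl⟩ := hj'
  rcases a with s | ⟨g, α | β⟩
  · simp only [listA, Finset.mem_image, Finset.mem_univ, true_and] at hi hj
    rcases x with s' | ⟨g', α'⟩ <;> rcases y with s'' | ⟨g'', α''⟩ <;> simp at hi hj
    subst hi; subst hj; rfl
  · simp only [listA, Finset.mem_image, Finset.mem_univ, true_and] at hi hj
    rcases x with s' | ⟨g', α'⟩ <;> rcases y with s'' | ⟨g'', α''⟩ <;> simp at hi hj
    obtain ⟨h1, h2⟩ := hi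
    obtain ⟨h3, h4⟩ := hj
    subst h1; subst h2; subst h3; subst h4; rfl
  · simp only [listA, Finset.mem_image, Finset.mem_univ, true_and] at hi hj
    rcases x with s' | ⟨g', α'⟩ <;> rcases y with s'' | ⟨g'', α''⟩ <;> simp at hi hj
    obtain ⟨h1, h2⟩ := hi
    obtain ⟨h3, h4⟩ := hj
    subst h1; subst h3
    have h5 : α' = α'' := by
      rw [h2] at h4
      revert h4
      cases α' <;> cases α'' <;> cases (w.2 g).1 <;> simp
    subst h5; rfl

/-- For each colouring of the clique side some vertex of the independent side is blocked. -/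
lemma blocked (n t K h : ℕ) (φ : Aside n t → Col n t K h)
    (hφ : ∀ a, φ a ∈ listA n t K h a) :
    ∃ w : Bside n t K h, ∀ i ∈ listB n t K h w, ∃ a, φ a = i := by
  have h1 : ∀ s : Fin n, ∃ c : Fin K, φ (Sum.inl s) = Sum.inl (s, c) := by
    intro s
    have := hφ (Sum.inl s)
    simp only [listA, Finset.mem_image, Finset.mem_univ, true_and] at this
    obtain ⟨c, hc⟩ := this
    exact ⟨c, hc.symm⟩
  have h2 : ∀ g : Fin t, ∃ x : Bool × (Bool → Fin h), ∀ α : Bool,
      ∃ a, φ a = Sum.inr (g, α, xor α x.1, x.2 α) := by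
    intro g
    have hr : ∀ α : Bool, ∃ (β : Bool) (c : Fin h),
        φ (Sum.inr (g, Sum.inl α)) = Sum.inr (g, α, β, c) := by
      intro α
      have := hφ (Sum.inr (g, Sum.inl α))
      simp only [listA, Finset.mem_image, Finset.mem_univ, true_and] at this
      obtain ⟨c, hc⟩ := this
      exact ⟨c.1, c.2, hc.symm⟩
    have hc : ∀ β : Bool, ∃ (α : Bool) (c : Fin h),
        φ (Sum.inr (g, Sum.inr β)) = Sum.inr (g, α, β, c) := by
      intro β
      have := hφ (Sum.inr (g, Sum.inr β))
      simp only [listA, Finset.mem_image, Finset.mem_univ, true_and] at this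
      obtain ⟨c, hc⟩ := this
      exact ⟨c.1, c.2, hc.symm⟩
    choose β cr hr using hr
    by_cases hne : β true = !(β false)
    · refine ⟨(β false, cr), ?_⟩
      intro α
      refine ⟨_, (hr α).trans ?_⟩
      cases α
      · simp
      · simp [hne]
    · have heq : β true = β false := by
        revert hne
        cases β true <;> cases β false <;> simp
      obtain ⟨α', c', hα'⟩ := hc (!(β false))
      refine ⟨(xor α' (!(β false)), fun α => if α = α' then c' else cr α), ?_⟩
      intro α
      by_cases hα : α = α'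
      · refine ⟨_, hα'.trans ?_⟩
        subst hα
        simp
      · refine ⟨_, (hr α).trans ?_⟩
        have hβ : β α = β false := by cases α <;> simp [heq]
        have hx : xor α (xor α' (!(β false))) = β false := by
          revert hα
          cases α <;> cases α' <;> cases β false <;> simp
        show _ = Sum.inr (g, α, xor α (xor α' (!(β false))), if α = α' then c' else cr α)
        rw [hβ, if_neg hα, hx]
  choose w1 hw1 using h1
  choose w2 hw2 using h2
  refine ⟨(w1, w2), ?_⟩
  intro i hi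
  unfold listB at hi
  rw [Finset.mem_image] at hi
  obtain ⟨x, _, rfl⟩ := hi
  rcases x with s | ⟨g, α⟩
  · exact ⟨_, hw1 s⟩
  · exact hw2 g α

end Graph

section Adapt

lemma AdChoosable.mono {r : ℕ} {H : UniformHypergraph r} {k k' : ℕ} (h : AdChoosable H k)
    (hk : k ≤ k') : AdChoosable H k' :=
  fun L hL f => h L (fun v => hk.trans (hL v)) f

lemma exists_ad {r : ℕ} (hr : 2 ≤ r) (H : UniformHypergraph r) : ∃ n, AdChoosable H n := by
  classical
  have := H.fin
  refine ⟨Fintype.card H.V, ?_⟩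
  intro L hL f
  have hHall : ∀ s : Finset H.V, s.card ≤ (s.biUnion L).card := by
    intro s
    rcases Finset.eq_empty_or_nonempty s with h | ⟨a, ha⟩
    · simp [h]
    · exact (Finset.card_le_univ s).trans ((hL a).trans
        (Finset.card_le_card (Finset.subset_biUnion_of_mem L ha)))
  obtain ⟨d, hd, hdt⟩ := (Finset.all_card_le_biUnion_card_iff_exists_injective L).1 hHall
  refine ⟨d, hdt, ?_⟩
  intro e he
  have hcard : 1 < e.1.card := by
    rw [H.uniform e.1 e.2]; omega
  obtain ⟨a, ha, b, hb, hab⟩ := Finset.one_lt_card.1 hcard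
  exact hab (hd ((he a ha).trans (he b hb).symm))

lemma lt_chAd {r : ℕ} (hr : 2 ≤ r) (H : UniformHypergraph r) (K : ℕ) (h : ¬ AdChoosable H K) :
    K + 1 ≤ chAd H := by
  by_contra hcon
  apply h
  have h1 : AdChoosable H (chAd H) := Nat.sInf_mem (exists_ad hr H)
  exact h1.mono (by omega)

/-- The adaptable lower bound for any hypergraph containing a blow-up of `K_{A,B}`. -/
lemma not_ad {r : ℕ} (hr : 2 ≤ r) (n t h : ℕ) (hn : n + t * 2 = 2 * h)
    (H : UniformHypergraph r) (π : H.V → Aside n t ⊕ Bside n t (2 * h) h)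
    (hfib : ∀ v, ∃ F : Finset H.V, (∀ x ∈ F, π x = v) ∧ (r - 2) * (2 * h) < F.card)
    (hedge : ∀ (a : Aside n t) (w : Bside n t (2 * h) h) (e : Finset H.V), e.card = r →
      (∀ x ∈ e, π x = Sum.inl a ∨ π x = Sum.inr w) → (∃ x ∈ e, π x = Sum.inl a) →
      (∃ x ∈ e, π x = Sum.inr w) → e ∈ H.edges) :
    ¬ AdChoosable H (2 * h) := by
  classical
  intro had
  -- encode the colours as natural numbers
  obtain ⟨enc, henc⟩ : ∃ enc : Col n t (2 * h) h → ℕ, Function.Injective enc :=
    ⟨fun c => (Fintype.equivFin (Col n t (2 * h) h) c).val, fun a b hab =>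
      (Fintype.equivFin (Col n t (2 * h) h)).injective (Fin.ext hab)⟩
  let L0 : Aside n t ⊕ Bside n t (2 * h) h → Finset ℕ := fun v =>
    (Sum.elim (listA n t (2 * h) h) (listB n t (2 * h) h) v).image enc
  have hL0 : ∀ v, (L0 v).card = 2 * h := by
    intro v
    show (Finset.image enc _).card = _
    rw [Finset.card_image_of_injective _ henc]
    rcases v with a | w
    · exact listA_card n t h a
    · exact (listB_card n t (2 * h) h w).trans hn
  have huniq : ∀ (a : Aside n t) (w : Bside n t (2 * h) h) (i j : ℕ), i ∈ L0 (Sum.inl a) →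
      i ∈ L0 (Sum.inr w) → j ∈ L0 (Sum.inl a) → j ∈ L0 (Sum.inr w) → i = j := by
    intro a w i j h1 h2 h3 h4
    obtain ⟨i1, hi1, rfl⟩ := Finset.mem_image.1 h1
    obtain ⟨i2, hi2, hi2'⟩ := Finset.mem_image.1 h2
    obtain ⟨j1, hj1, rfl⟩ := Finset.mem_image.1 h3
    obtain ⟨j2, hj2, hj2'⟩ := Finset.mem_image.1 h4
    have e1 := henc hi2'
    have e2 := henc hj2'
    subst e1; subst e2
    rw [listAB n t (2 * h) h a w i2 j2 hi1 hi2 hj1 hj2]
  let f : H.edges → ℕ := fun e =>
    if hex : ∃ i, ∀ x ∈ e.1, i ∈ L0 (π x) then hex.choose else 0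
  obtain ⟨φ, hφ1, hφ2⟩ := had (fun x => L0 (π x)) (fun x => (hL0 _).ge) f
  -- majority colours
  have hmaj : ∀ a : Aside n t, ∃ i ∈ L0 (Sum.inl a), ∃ F : Finset H.V,
      (∀ x ∈ F, π x = Sum.inl a ∧ φ x = i) ∧ F.card = r - 1 := by
    intro a
    obtain ⟨F, hF1, hF2⟩ := hfib (Sum.inl a)
    have hmaps : ∀ x ∈ F, φ x ∈ L0 (Sum.inl a) := by
      intro x hx
      have := hφ1 x
      rw [hF1 x hx] at this
      exact this
    have hlt : (L0 (Sum.inl a)).card * (r - 2) < F.card := by
      rw [hL0, mul_comm]; exact hF2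
    obtain ⟨i, hi, hi2⟩ := Finset.exists_lt_card_fiber_of_mul_lt_card_of_maps_to hmaps hlt
    obtain ⟨F', hF', hF'2⟩ := Finset.exists_subset_card_eq (show r - 1 ≤ _ by
      have := hi2
      exact (by omega : r - 1 ≤ (F.filter (fun x => φ x = i)).card))
    refine ⟨i, hi, F', ?_, hF'2⟩
    intro x hx
    have := Finset.mem_filter.1 (hF' hx)
    exact ⟨hF1 x this.1, this.2⟩
  choose mc hmc1 F hF1 hF2 using hmaj
  -- decode
  have hdec : ∀ a : Aside n t, ∃ c ∈ listA n t (2 * h) h a, enc c = mc a := by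
    intro a
    exact Finset.mem_image.1 (hmc1 a)
  choose mc' hmc2 hmc3 using hdec
  obtain ⟨w, hw⟩ := blocked n t (2 * h) h mc' hmc2
  obtain ⟨Fw, hFw1, hFw2⟩ := hfib (Sum.inr w)
  have hFwne : Fw.Nonempty := by
    rw [← Finset.card_pos]; omega
  obtain ⟨x0, hx0⟩ := hFwne
  have hx0π := hFw1 x0 hx0
  have hx0L : φ x0 ∈ L0 (Sum.inr w) := by
    have := hφ1 x0
    rw [hx0π] at this
    exact this
  obtain ⟨c, hc, hcx⟩ := Finset.mem_image.1 hx0L
  obtain ⟨a, ha⟩ := hw c hc
  have hmca : mc a = φ x0 := by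
    rw [← hmc3 a, ha, hcx]
  have hx0F : x0 ∉ F a := by
    intro hcon
    have := (hF1 a x0 hcon).1
    rw [hx0π] at this
    exact absurd this (by simp)
  have hcardE : (insert x0 (F a)).card = r := by
    rw [Finset.card_insert_of_notMem hx0F, hF2 a]; omega
  have hFane : (F a).Nonempty := by
    rw [← Finset.card_pos, hF2 a]; omega
  obtain ⟨y0, hy0⟩ := hFane
  have hE : insert x0 (F a) ∈ H.edges := by
    apply hedge a w _ hcardE
    · intro x hx
      rcases Finset.mem_insert.1 hx with rfl | hx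
      · exact Or.inr hx0π
      · exact Or.inl (hF1 a x hx).1
    · exact ⟨y0, Finset.mem_insert_of_mem hy0, (hF1 a y0 hy0).1⟩
    · exact ⟨x0, Finset.mem_insert_self _ _, hx0π⟩
  have hmono : ∀ x ∈ insert x0 (F a), φ x = φ x0 := by
    intro x hx
    rcases Finset.mem_insert.1 hx with rfl | hx
    · rfl
    · rw [(hF1 a x hx).2, hmca]
  have hex : ∃ i, ∀ x ∈ insert x0 (F a), i ∈ L0 (π x) := by
    refine ⟨φ x0, ?_⟩
    intro x hx
    rw [← hmono x hx]
    exact hφ1 x
  have hfe : f ⟨insert x0 (F a), hE⟩ = φ x0 := by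
    have h1 : f ⟨insert x0 (F a), hE⟩ = hex.choose := by
      simp only [f]
      rw [dif_pos hex]
    rw [h1]
    have h2 := hex.choose_spec
    have h3 := h2 x0 (Finset.mem_insert_self _ _)
    have h4 := h2 y0 (Finset.mem_insert_of_mem hy0)
    rw [hx0π] at h3
    rw [(hF1 a y0 hy0).1] at h4
    have h5 := hφ1 y0
    rw [(hF1 a y0 hy0).1, hmono y0 (Finset.mem_insert_of_mem hy0)] at h5
    exact huniq a w _ _ h4 h3 h5 hx0L
  exact hφ2 ⟨insert x0 (F a), hE⟩ (fun x hx => by rw [hfe]; exact hmono x hx)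

end Adapt

section BlowUp

/-- Blow-up of the complete bipartite graph between `A` and `B` to an `r`-uniform hypergraph. -/
def blowUp (r m : ℕ) (A B : Type) [Fintype A] [Fintype B] : UniformHypergraph r where
  V := (A ⊕ B) × Fin m
  fin := inferInstance
  edges := {e | e.card = r ∧ ∃ (a : A) (w : B), (∀ x ∈ e, x.1 = Sum.inl a ∨ x.1 = Sum.inr w) ∧
    (∃ x ∈ e, x.1 = Sum.inl a) ∧ (∃ x ∈ e, x.1 = Sum.inr w)}
  uniform := fun _ he => he.1

lemma union_lower {m : ℕ} (L : Fin m → Finset ℕ) (s : ℕ) (hL : ∀ j, s ≤ (L j).card)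
    (hpair : ∀ i j, i ≠ j → (L i ∩ L j).card ≤ 1) (F : Finset (Fin m)) :
    ∑ i ∈ Finset.range F.card, (s - i) ≤ (F.biUnion L).card := by
  classical
  induction F using Finset.induction_on with
  | empty => simp
  | insert a F ha ih =>
    rw [Finset.card_insert_of_notMem ha, Finset.sum_range_succ, Finset.biUnion_insert]
    have h1 : (L a ∩ F.biUnion L).card ≤ F.card := by
      rw [Finset.inter_biUnion]
      refine Finset.card_biUnion_le.trans ?_
      calc ∑ j ∈ F, (L a ∩ L j).card ≤ ∑ _j ∈ F, 1 := by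
            apply Finset.sum_le_sum
            intro j hj
            exact hpair a j (fun h => ha (h ▸ hj))
        _ = F.card := by simp
    have h2 := Finset.card_union_add_card_inter (L a) (F.biUnion L)
    have h3 := hL a
    have h4 : (F.biUnion L).card ≤ (L a ∪ F.biUnion L).card :=
      Finset.card_le_card Finset.subset_union_right
    omega

lemma sum_tri (s x : ℕ) (hx : x ≤ s) :
    2 * ∑ i ∈ Finset.range x, (s - i) + x * x = 2 * s * x + x := by
  induction x with
  | zero => simp
  | succ x ih =>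
    have h1 := ih (by omega)
    rw [Finset.sum_range_succ]
    obtain ⟨d, rfl⟩ : ∃ d, s = x + d := ⟨s - x, by omega⟩
    rw [show x + d - x = d by omega]
    ring_nf at h1 ⊢
    omega

lemma rainbow {m : ℕ} (L : Fin m → Finset ℕ) (s : ℕ) (hm : 2 * m ≤ s * (s + 1))
    (hL : ∀ j, s ≤ (L j).card) (hpair : ∀ i j, i ≠ j → (L i ∩ L j).card ≤ 1) :
    ∃ d : Fin m → ℕ, Function.Injective d ∧ ∀ j, d j ∈ L j := by
  classical
  apply (Finset.all_card_le_biUnion_card_iff_exists_injective L).1
  intro F
  have h1 := union_lower L s hL hpair F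
  refine le_trans ?_ h1
  have hFm : F.card ≤ m := by simpa using Finset.card_le_univ F
  by_cases hF : F.card ≤ s
  · rcases Nat.eq_zero_or_pos F.card with h0 | h0
    · omega
    · have h2 : ∑ i ∈ Finset.range 1, (s - i) ≤ ∑ i ∈ Finset.range F.card, (s - i) :=
        Finset.sum_le_sum_of_subset (Finset.range_mono h0)
      simp at h2
      omega
  · push Not at hF
    have h2 : ∑ i ∈ Finset.range s, (s - i) ≤ ∑ i ∈ Finset.range F.card, (s - i) :=
      Finset.sum_le_sum_of_subset (Finset.range_mono hF.le)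
    have h3 := sum_tri s s le_rfl
    have h4 : 2 * ∑ i ∈ Finset.range s, (s - i) = s * (s + 1) := by
      have : 2 * s * s = s * s + s * s := by ring
      have h5 : s * (s + 1) = s * s + s := by ring
      omega
    omega

lemma sep_blowUp (r m s : ℕ) (hr : 3 ≤ r) (hrm : r - 2 ≤ m)
    (hm : 2 * m ≤ s * (s + 1)) (A B : Type) [Fintype A] [Fintype B] (a0 : A) (b0 : B) :
    SepChoosable (blowUp r m A B) s := by
  classical
  intro L hL hsep
  obtain ⟨G, _, hG⟩ : ∃ G : Finset (Fin m), G ⊆ Finset.univ ∧ G.card = r - 2 :=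
    Finset.exists_subset_card_eq (by simpa using hrm)
  have hGne : G.Nonempty := by rw [← Finset.card_pos]; omega
  obtain ⟨g0, hg0⟩ := hGne
  -- two copies of a vertex lie in a common edge
  have hcommon : ∀ (v u : A ⊕ B) (i j : Fin m), i ≠ j → v ≠ u →
      (∀ e : Finset ((A ⊕ B) × Fin m), e.card = r → (∀ x ∈ e, x.1 = v ∨ x.1 = u) →
        (∃ x ∈ e, x.1 = v) → (∃ x ∈ e, x.1 = u) → e ∈ (blowUp r m A B).edges) →
      (L (v, i) ∩ L (v, j)).card ≤ 1 := by
    intro v u i j hij hvu hedge
    let e : Finset ((A ⊕ B) × Fin m) := {(v, i), (v, j)} ∪ G.image (fun g => (u, g))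
    have hdis : Disjoint ({(v, i), (v, j)} : Finset ((A ⊕ B) × Fin m))
        (G.image (fun g => (u, g))) := by
      rw [Finset.disjoint_left]
      intro x hx hx'
      obtain ⟨g, _, rfl⟩ := Finset.mem_image.1 hx'
      simp only [Finset.mem_insert, Finset.mem_singleton, Prod.mk.injEq] at hx
      rcases hx with h | h
      · exact hvu h.1.symm
      · exact hvu h.1.symm
    have hecard : e.card = r := by
      show (({(v, i), (v, j)} : Finset ((A ⊕ B) × Fin m)) ∪ G.image (fun g => (u, g))).card = r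
      rw [Finset.card_union_of_disjoint hdis, Finset.card_pair (by
        intro h; exact hij (Prod.mk.inj h).2), Finset.card_image_of_injective _ (by
        intro x y hxy; exact (Prod.mk.inj hxy).2), hG]
      omega
    have hvi : (v, i) ∈ e := by simp [e]
    have hvj : (v, j) ∈ e := by simp [e]
    have hug : (u, g0) ∈ e :=
      Finset.mem_union_right _ (Finset.mem_image.2 ⟨g0, hg0, rfl⟩)
    have he : e ∈ (blowUp r m A B).edges := by
      apply hedge e hecard
      · intro x hx
        rcases Finset.mem_union.1 hx with hx | hx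
        · simp only [Finset.mem_insert, Finset.mem_singleton] at hx
          rcases hx with rfl | rfl
          · exact Or.inl rfl
          · exact Or.inl rfl
        · obtain ⟨g, _, rfl⟩ := Finset.mem_image.1 hx
          exact Or.inr rfl
      · exact ⟨_, hvi, rfl⟩
      · exact ⟨_, hug, rfl⟩
    exact hsep e he (v, i) hvi (v, j) hvj (by
      intro h; exact hij (Prod.mk.inj h).2)
  have hpair : ∀ (v : A ⊕ B) (i j : Fin m), i ≠ j → (L (v, i) ∩ L (v, j)).card ≤ 1 := by
    intro v i j hij
    rcases v with a | w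
    · apply hcommon (Sum.inl a) (Sum.inr b0) i j hij (by simp)
      intro e h1 h2 h3 h4
      exact ⟨h1, a, b0, h2, h3, h4⟩
    · apply hcommon (Sum.inr w) (Sum.inl a0) i j hij (by simp)
      intro e h1 h2 h3 h4
      exact ⟨h1, a0, w, fun x hx => (h2 x hx).symm, h4, h3⟩
  have hr2 : ∀ v : A ⊕ B, ∃ d : Fin m → ℕ, Function.Injective d ∧ ∀ j, d j ∈ L (v, j) :=
    fun v => rainbow (fun j => L (v, j)) s hm (fun j => hL _) (hpair v)
  choose d hd1 hd2 using hr2
  refine ⟨fun x => d x.1 x.2, fun x => hd2 x.1 x.2, ?_⟩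
  rintro e ⟨hcard, a, w, he, _, _⟩ ⟨c, hc⟩
  have hmaps : ∀ x ∈ e, x.1 ∈ ({Sum.inl a, Sum.inr w} : Finset (A ⊕ B)) := by
    intro x hx
    simpa using he x hx
  have hlt : ({Sum.inl a, Sum.inr w} : Finset (A ⊕ B)).card < e.card := by
    have h1 : ({Sum.inl a, Sum.inr w} : Finset (A ⊕ B)).card ≤ 2 := Finset.card_le_two
    exact lt_of_le_of_lt h1 (lt_of_lt_of_eq (by omega : 2 < r) hcard.symm)
  obtain ⟨x, hx, y, hy, hxy, hxy'⟩ := Finset.exists_ne_map_eq_of_card_lt_of_maps_to hlt hmaps
  apply hxy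
  have h1 : d x.1 x.2 = c := hc x hx
  have h2 : d y.1 y.2 = c := hc y hy
  rw [← hxy'] at h2
  exact Prod.ext hxy' (hd1 x.1 (h1.trans h2.symm))

end BlowUp

section Final

lemma main_three (r k : ℕ) (hr : 3 ≤ r) :
    ∃ H : UniformHypergraph r, (∃ n, SepChoosable H n) ∧ (∃ n, AdChoosable H n) ∧
      chSep H + k ≤ chAd H := by
  classical
  obtain ⟨ρ, rfl⟩ : ∃ ρ, r = ρ + 3 := ⟨r - 3, by omega⟩
  set s := 4 * (ρ + 1) * (k + 1) + 2 with hs
  set h := s + k with hh
  set m := (ρ + 1) * (2 * h) + 1 with hm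
  have hs0 : 0 < s := by omega
  have h2m : 2 * m ≤ s * (s + 1) := by
    have e1 : 2 * m = 4 * (ρ + 1) * (s + k) + 2 := by rw [hm, hh]; ring
    have e2 : s * (s + 1) = 4 * (ρ + 1) * ((k + 1) * s) + 3 * s := by
      conv_lhs => rw [show s + 1 = 4 * (ρ + 1) * (k + 1) + 3 by omega]
      ring
    have e3 : s + k ≤ (k + 1) * s := by nlinarith
    have e4 : 4 * (ρ + 1) * (s + k) ≤ 4 * (ρ + 1) * ((k + 1) * s) := Nat.mul_le_mul_left _ e3
    omega
  have hρm : ρ + 3 - 2 ≤ m := by
    have : ρ + 1 ≤ (ρ + 1) * (2 * h) := Nat.le_mul_of_pos_right _ (by omega)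
    omega
  let A := Aside (2 * h) 0
  let B := Bside (2 * h) 0 (2 * h) h
  let H : UniformHypergraph (ρ + 3) := blowUp (ρ + 3) m A B
  have a0 : A := Sum.inl ⟨0, by omega⟩
  have b0 : B := (fun _ => ⟨0, by omega⟩, fun g => Fin.elim0 g)
  have hsep : SepChoosable H s := sep_blowUp (ρ + 3) m s hr hρm h2m A B a0 b0
  have had : ¬ AdChoosable H (2 * h) := by
    apply not_ad (by omega) (2 * h) 0 h (by omega) H (fun x => x.1)
    · intro v
      let emb : Fin m ↪ (A ⊕ B) × Fin m := ⟨fun j => (v, j), fun x y hxy => (Prod.mk.inj hxy).2⟩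
      refine ⟨Finset.univ.map emb, ?_, ?_⟩
      · intro x hx
        obtain ⟨j, _, rfl⟩ := Finset.mem_map.1 hx
        rfl
      · have himg : (Finset.univ.map emb).card = m := by simp
        refine lt_of_lt_of_eq ?_ himg.symm
        rw [hm, show ρ + 3 - 2 = ρ + 1 by omega]
        omega
    · intro a w e h1 h2 h3 h4
      exact ⟨h1, a, w, h2, h3, h4⟩
  refine ⟨H, ⟨s, hsep⟩, exists_ad (by omega) H, ?_⟩
  have h1 : chSep H ≤ s := Nat.sInf_le hsep
  have h2 := lt_chAd (by omega) H (2 * h) had
  omega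

lemma exists_param (g : ℕ) : ∃ t : ℕ, g + 1 ≤ t ∧
    Real.exp (g + 4) * (100 * (t : ℝ) ^ 2) ^ g < 2 ^ t := by
  have h1 := tendsto_pow_const_div_const_pow_of_one_lt (2 * g) (r := (2 : ℝ)) (by norm_num)
  have hpos : (0 : ℝ) < 1 / (Real.exp (g + 4) * 100 ^ g) := by positivity
  have h2 := (h1.eventually (gt_mem_nhds hpos)).and (Filter.eventually_ge_atTop (g + 1))
  obtain ⟨t, ht1, ht2⟩ := h2.exists
  refine ⟨t, ht2, ?_⟩
  rw [div_lt_div_iff₀ (by positivity) (by positivity)] at ht1
  rw [mul_pow, ← pow_mul]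
  nlinarith

lemma main_two (g : ℕ) :
    ∃ H : UniformHypergraph 2, (∃ n, SepChoosable H n) ∧ (∃ n, AdChoosable H n) ∧
      chSep H + (g + 1) ≤ chAd H := by
  classical
  obtain ⟨t, ht, hexp⟩ := exists_param g
  -- parameters
  set h := 50 * t ^ 2 with hh
  have ht2 : t ≤ t ^ 2 := by nlinarith
  obtain ⟨n, hn⟩ : ∃ n, n + 2 * t = 2 * h := ⟨2 * h - 2 * t, by omega⟩
  obtain ⟨k, hk⟩ : ∃ k, k + g = 2 * h := ⟨2 * h - g, by omega⟩
  set q := 2 * t + g with hq
  let A := Aside n t
  let B := Bside n t (2 * h) h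
  have hcardA : Fintype.card A = k + q := by
    simp only [A, Fintype.card_sum, Fintype.card_prod, Fintype.card_fin, Fintype.card_bool]
    omega
  have hcardB : Fintype.card B = (2 * h) ^ n * (2 * h ^ 2) ^ t := by
    simp only [B, Fintype.card_prod, Fintype.card_fun, Fintype.card_fin, Fintype.card_bool]
  have hBt : Fintype.card B * 2 ^ t = (2 * h) ^ (2 * h) := by
    rw [hcardB, mul_assoc, ← mul_pow, show 2 * h ^ 2 * 2 = (2 * h) ^ 2 by ring, ← pow_mul,
      ← pow_add, hn]
  have hk0 : 2 ≤ k := by nlinarith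
  have hkR : (0 : ℝ) < k := by
    have : 0 < k := by omega
    exact_mod_cast this
  have hqk : 8 * q * q + q ≤ k := by
    have h1 : q ≤ 3 * t := by omega
    have h2 : q * q ≤ 3 * t * (3 * t) := Nat.mul_le_mul h1 h1
    have h3 : 8 * q * q = 8 * (q * q) := by ring
    have h4 : 3 * t * (3 * t) = 9 * t ^ 2 := by ring
    omega
  have hb : (Fintype.card B : ℝ) * Real.exp 4 < (k : ℝ) ^ k := by
    have e1 : (Fintype.card B : ℝ) * 2 ^ t = ((2 * h : ℕ) : ℝ) ^ (2 * h) := by
      exact_mod_cast hBt
    have e2 : ((2 * h : ℕ) : ℝ) = k + g := by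
      rw [← hk]; push_cast; ring
    have e3 : ((2 * h : ℕ) : ℝ) ≤ k * Real.exp (g / k) := by
      rw [e2]
      have := Real.add_one_le_exp ((g : ℝ) / k)
      have h1 : (k : ℝ) * ((g : ℝ) / k + 1) ≤ k * Real.exp (g / k) :=
        mul_le_mul_of_nonneg_left this hkR.le
      have h2 : (k : ℝ) * ((g : ℝ) / k + 1) = k + g := by field_simp; ring
      linarith
    have e4 : ((2 * h : ℕ) : ℝ) ^ k ≤ (k : ℝ) ^ k * Real.exp g := by
      calc ((2 * h : ℕ) : ℝ) ^ k ≤ ((k : ℝ) * Real.exp (g / k)) ^ k :=
            pow_le_pow_left₀ (by positivity) e3 k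
        _ = (k : ℝ) ^ k * Real.exp g := by
            rw [mul_pow, ← Real.exp_nat_mul]
            congr 2
            field_simp
    have e5 : ((2 * h : ℕ) : ℝ) ^ (2 * h) ≤ (k : ℝ) ^ k * Real.exp g * ((2 * h : ℕ) : ℝ) ^ g := by
      have : ((2 * h : ℕ) : ℝ) ^ (2 * h) = ((2 * h : ℕ) : ℝ) ^ k * ((2 * h : ℕ) : ℝ) ^ g := by
        rw [← pow_add, hk]
      rw [this]
      exact mul_le_mul_of_nonneg_right e4 (by positivity)
    have e6 : ((2 * h : ℕ) : ℝ) = 100 * (t : ℝ) ^ 2 := by
      rw [hh]; push_cast; ring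
    have e7 : Real.exp (g + 4) = Real.exp g * Real.exp 4 := by rw [← Real.exp_add]
    rw [e7] at hexp
    rw [e6] at e5
    have h2t : (0 : ℝ) < 2 ^ t := by positivity
    have e8 : (Fintype.card B : ℝ) * Real.exp 4 * 2 ^ t < (k : ℝ) ^ k * 2 ^ t := by
      calc (Fintype.card B : ℝ) * Real.exp 4 * 2 ^ t
          = ((Fintype.card B : ℝ) * 2 ^ t) * Real.exp 4 := by ring
        _ = ((2 * h : ℕ) : ℝ) ^ (2 * h) * Real.exp 4 := by rw [e1]
        _ ≤ ((k : ℝ) ^ k * Real.exp g * (100 * (t : ℝ) ^ 2) ^ g) * Real.exp 4 := by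
            rw [e6]
            exact mul_le_mul_of_nonneg_right e5 (Real.exp_pos 4).le
        _ = (k : ℝ) ^ k * (Real.exp g * Real.exp 4 * (100 * (t : ℝ) ^ 2) ^ g) := by ring
        _ < (k : ℝ) ^ k * 2 ^ t := mul_lt_mul_of_pos_left hexp (by positivity)
    exact lt_of_mul_lt_mul_right e8 h2t.le
  let H : UniformHypergraph 2 := host A B
  have hsep : SepChoosable H k := sep_host A B k q hcardA hk0 hqk hb
  have had : ¬ AdChoosable H (2 * h) := by
    apply not_ad le_rfl n t h (by omega) H (fun x => x)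
    · intro v
      refine ⟨{v}, ?_, ?_⟩
      · intro x hx
        exact Finset.mem_singleton.1 hx
      · show (2 - 2) * (2 * h) < ({v} : Finset (A ⊕ B)).card
        simp
    · intro a w e h1 h2 h3 h4
      refine ⟨a, Sum.inr w, by simp, ?_⟩
      intro x
      constructor
      · exact h2 x
      · rintro (rfl | rfl)
        · obtain ⟨y, hy, hya⟩ := h3
          rw [← hya]; exact hy
        · obtain ⟨y, hy, hya⟩ := h4
          rw [← hya]; exact hy
  refine ⟨H, ⟨k, hsep⟩, exists_ad le_rfl H, ?_⟩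
  have h1 : chSep H ≤ k := Nat.sInf_le hsep
  have h2 := lt_chAd le_rfl H (2 * h) had
  omega

end Final

/-- For all `r ≥ 2` and `k ≥ 1` there is an `r`-uniform hypergraph `H` with
`ch_ad(H) - ch_sep(H) ≥ k`. -/
theorem result : ∀ r k : ℕ, 2 ≤ r → 1 ≤ k →
    ∃ H : UniformHypergraph r, (∃ n, SepChoosable H n) ∧ (∃ n, AdChoosable H n) ∧
      chSep H + k ≤ chAd H := by
  intro r k hr hk
  rcases Nat.lt_or_ge r 3 with h | h
  · obtain rfl : r = 2 := by omega
    obtain ⟨g, rfl⟩ : ∃ g, k = g + 1 := ⟨k - 1, by omega⟩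
    exact main_two g
  · exact main_three r k h

end Pool.Agent.Results.MP_0a2cd2_co.GapUnbounded
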